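import Pool.Agent.H96.EQ.D11

/-!
Row D12 of the board eqd (iterates).
-/

namespace Pool.Agent.H96.EQ

open scoped BigOperators ComplexConjugate ContDiff ComplexOrder
open Pool.Agent.H92.EQ

theorem iter_succ {N : ℕ} (F : Fin N → MvPolynomial (Fin N) ℂ) (n : ℕ) :
    iter F (n + 1) = cmp F (iter F n) := rfl

theorem ev_iter_zero {N : ℕ} (F : Fin N → MvPolynomial (Fin N) ℂ) (z : Fin N → ℂ) :
    ev (iter F 0) z = z := by
  funext i
  simp [ev, iter]

theorem jac_iter_zero {N : ℕ} (F : Fin N → MvPolynomial (Fin N) ℂ) (z : Fin N → ℂ) :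
    jac (iter F 0) z = 1 := by
  ext i a
  simp only [jac, iter, MvPolynomial.pderiv_X, Matrix.one_apply]
  by_cases h : i = a
  · subst h
    simp
  · rw [Pi.single_apply, if_neg h, if_neg h]
    simp

theorem isH_iter {N d : ℕ} (F : Fin N → MvPolynomial (Fin N) ℂ) (hd : 1 ≤ d) (hF : IsH d F)
    (n : ℕ) : IsH (d ^ n) (iter F n) := by
  induction n with
  | zero =>
    refine ⟨fun i => ?_, fun z hz => ?_⟩
    · rw [pow_zero]
      exact MvPolynomial.isHomogeneous_X ℂ i
    · rwa [ev_iter_zero] at hz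
  | succ n ih =>
    rw [iter_succ, pow_succ, mul_comm]
    exact (pf_D11 N d (d ^ n) F (iter F n) hd (Nat.one_le_pow _ _ hd) hF ih).1

theorem ev_iter_add {N : ℕ} (F : Fin N → MvPolynomial (Fin N) ℂ) (m n : ℕ) (z : Fin N → ℂ) :
    ev (iter F (m + n)) z = ev (iter F m) (ev (iter F n) z) := by
  induction m with
  | zero => rw [zero_add, ev_iter_zero]
  | succ m ih => rw [Nat.succ_add, iter_succ, iter_succ, ev_cmp, ev_cmp, ih]

theorem jac_iter_add {N : ℕ} (F : Fin N → MvPolynomial (Fin N) ℂ) (m n : ℕ) (z : Fin N → ℂ) :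
    jac (iter F (m + n)) z = jac (iter F m) (ev (iter F n) z) * jac (iter F n) z := by
  induction m with
  | zero => rw [zero_add, jac_iter_zero, one_mul]
  | succ m ih =>
    rw [Nat.succ_add, iter_succ, iter_succ, jac_cmp, jac_cmp, ih, ev_iter_add, Matrix.mul_assoc]

theorem pull_const_mul {ι κ : Type} [Fintype ι] [DecidableEq ι] [Fintype κ] [DecidableEq κ]
    {p : ℕ} (G : ι → MvPolynomial κ ℂ) (S : Form ι p) (c : ℂ) (z : κ → ℂ)
    (I J : Fin p → κ) :
    pull G (fun w I J => c * S w I J) z I J = c * pull G S z I J := by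
  unfold pull
  rw [Finset.mul_sum]
  refine Finset.sum_congr rfl fun I' _ => ?_
  rw [Finset.mul_sum]
  refine Finset.sum_congr rfl fun J' _ => ?_
  ring

theorem wd_const_mul {ι : Type} [Fintype ι] [DecidableEq ι] (a : ι) (f : (ι → ℂ) → ℂ)
    (z : ι → ℂ) (c : ℂ) (hf : DifferentiableAt ℝ f z) :
    wd a (fun w => c * f w) z = c * wd a f z ∧ wdb a (fun w => c * f w) z = c * wdb a f z := by
  have h : fderiv ℝ (fun w => c * f w) z = c • fderiv ℝ f z := fderiv_const_mul hf c
  unfold wd wdb
  rw [h]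
  constructor
  · simp only [smul_apply, smul_eq_mul]
    ring
  · simp only [smul_apply, smul_eq_mul]
    ring

/-- A nonnegative multiple of a form on projective space. -/
theorem proj_const_mul {N p : ℕ} (T : Form (Fin N) p) (r : ℝ) (hr : 0 ≤ r) (hT : ProjForm T) :
    ProjForm (fun z I J => (r : ℂ) * T z I J) := by
  have hdiff : ∀ (z : Fin N → ℂ), z ∈ ({0}ᶜ : Set (Fin N → ℂ)) → ∀ I J,
      DifferentiableAt ℝ (fun w => T w I J) z := by
    intro z hz I J
    exact ((hT.cp.smooth I J).differentiableOn (by simp)).differentiableAt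
      (isOpen_compl_singleton.mem_nhds hz)
  refine ⟨⟨fun I J => contDiffOn_const.mul (hT.cp.smooth I J), ?_, ?_, ?_, ?_, ?_⟩, ?_, ?_, ?_⟩
  · intro z hz π I J
    rw [hT.cp.altL z hz π I J]
    ring
  · intro z hz π I J
    rw [hT.cp.altR z hz π I J]
    ring
  · intro z hz c
    have h := hT.cp.psd z hz c
    have h2 : ∑ I, ∑ J, c I * conj (c J) * ((r : ℂ) * T z I J) =
        (r : ℂ) * ∑ I, ∑ J, c I * conj (c J) * T z I J := by
      rw [Finset.mul_sum]
      refine Finset.sum_congr rfl fun I _ => ?_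
      rw [Finset.mul_sum]
      refine Finset.sum_congr rfl fun J _ => ?_
      ring
    rw [h2]
    exact mul_nonneg (by exact_mod_cast hr) h
  · intro z hz I J
    have h := hT.cp.closedL z hz I J
    calc _ = ∑ j : Fin (p + 1), (r : ℂ) * ((-1 : ℂ) ^ (j : ℕ) *
          wd (I j) (fun w => T w (I ∘ j.succAbove) J) z) := by
          refine Finset.sum_congr rfl fun j _ => ?_
          rw [(wd_const_mul (I j) (fun w => T w (I ∘ j.succAbove) J) z (r : ℂ)
            (hdiff z hz _ _)).1]
          ring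
      _ = 0 := by rw [← Finset.mul_sum, h, mul_zero]
  · intro z hz I J
    have h := hT.cp.closedR z hz I J
    calc _ = ∑ j : Fin (p + 1), (r : ℂ) * ((-1 : ℂ) ^ (j : ℕ) *
          wdb (J j) (fun w => T w I (J ∘ j.succAbove)) z) := by
          refine Finset.sum_congr rfl fun j _ => ?_
          rw [(wd_const_mul (J j) (fun w => T w I (J ∘ j.succAbove)) z (r : ℂ)
            (hdiff z hz _ _)).2]
          ring
      _ = 0 := by rw [← Finset.mul_sum, h, mul_zero]
  · intro l z hl hz I J
    rw [hT.homog l z hl hz I J]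
    ring
  · intro z hz I J j
    have h := hT.basicL z hz I J j
    calc _ = ∑ a, (r : ℂ) * (z a * T z (Function.update I j a) J) :=
          Finset.sum_congr rfl fun a _ => by ring
      _ = 0 := by rw [← Finset.mul_sum, h, mul_zero]
  · intro z hz I J j
    have h := hT.basicR z hz I J j
    calc _ = ∑ a, (r : ℂ) * (conj (z a) * T z I (Function.update J j a)) :=
          Finset.sum_congr rfl fun a _ => by ring
      _ = 0 := by rw [← Finset.mul_sum, h, mul_zero]

theorem pf_D12 (h5 : T_D5) : T_D12 := by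
  intro N d F hd hF m n
  refine ⟨isH_iter F hd hF n, ev_iter_add F m n, jac_iter_add F m n, ?_, ?_⟩
  · intro p S z
    funext I J
    unfold Sn
    rw [pull_const_mul, pull_comp (iter F (m + n)) (iter F m) (iter F n) S z
      (ev_iter_add F m n z) (jac_iter_add F m n z)]
    rw [← mul_assoc, ← mul_inv, ← pow_add]
    congr 3
    ring
  · intro p S hS
    have h := h5 N p (d ^ n) (iter F n) S (Nat.one_le_pow _ _ hd) (isH_iter F hd hF n) hS
    have h2 := proj_const_mul (pull (iter F n) S) (((d : ℝ) ^ (p * n))⁻¹) (by positivity) h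
    have e : Sn F d n S = fun z I J => ((((d : ℝ) ^ (p * n))⁻¹ : ℝ) : ℂ) *
        pull (iter F n) S z I J := by
      funext z I J
      unfold Sn
      push_cast
      rfl
    rw [e]
    exact h2

end Pool.Agent.H96.EQ
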