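import Pool.Agent.H96.EQ.D8

/-!
Row D13 of the board eqd (linear maps).
-/

namespace Pool.Agent.H96.EQ

open scoped BigOperators ComplexConjugate ContDiff ComplexOrder
open Pool.Agent.H92.EQ

theorem ev_lin {N : ℕ} (A : Matrix (Fin N) (Fin N) ℂ) (z : Fin N → ℂ) :
    ev (lin A) z = A.mulVec z := by
  funext i
  simp [ev, lin, Matrix.mulVec, dotProduct]

theorem jac_lin {N : ℕ} (A : Matrix (Fin N) (Fin N) ℂ) (z : Fin N → ℂ) :
    jac (lin A) z = A := by
  ext i a
  simp only [jac, lin, map_sum, Derivation.leibniz, MvPolynomial.pderiv_C,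
    MvPolynomial.pderiv_X, smul_eq_mul]
  rw [Finset.sum_eq_single a]
  · simp
  · intro b _ hb
    rw [Pi.single_apply, if_neg (fun h => hb (h : b = a))]
    simp
  · intro h
    exact absurd (Finset.mem_univ a) h

theorem pf_D13 : T_D13 := by
  intro N A B z
  refine ⟨ev_lin A z, jac_lin A z, fun hA => ⟨fun i => ?_, fun w hw => ?_⟩, fun p S => ?_⟩
  · refine MvPolynomial.IsHomogeneous.sum _ _ _ fun j _ => ?_
    have h := (MvPolynomial.isHomogeneous_C (Fin N) (A i j)).mul
      (MvPolynomial.isHomogeneous_X ℂ j)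
    simpa using h
  · rw [ev_lin] at hw
    exact Matrix.eq_zero_of_mulVec_eq_zero hA hw
  · refine pull_comp _ _ _ _ _ ?_ ?_
    · rw [ev_lin, ev_lin, ev_lin, Matrix.mulVec_mulVec]
    · rw [jac_lin, jac_lin, jac_lin]

end Pool.Agent.H96.EQ
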