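import Pool.Agent.H96.EQ.D8

/-!
Row D11 of the board eqd (homogeneity and composition).
-/

namespace Pool.Agent.H96.EQ

open scoped BigOperators ComplexConjugate ContDiff ComplexOrder
open Pool.Agent.H92.EQ

theorem hom_bind {κ τ : Type} (H : κ → MvPolynomial τ ℂ) (D D' : ℕ) (P : MvPolynomial κ ℂ)
    (hP : P.IsHomogeneous D) (hH : ∀ i, (H i).IsHomogeneous D') :
    (MvPolynomial.bind₁ H P).IsHomogeneous (D * D') := by
  have h := hP.aeval H hH
  rw [mul_comm] at h
  exact h

theorem eval_smul_hom {κ : Type} (P : MvPolynomial κ ℂ) (D : ℕ) (hP : P.IsHomogeneous D)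
    (l : ℂ) (z : κ → ℂ) : MvPolynomial.eval (l • z) P = l ^ D * MvPolynomial.eval z P := by
  rw [MvPolynomial.eval_eq, MvPolynomial.eval_eq, Finset.mul_sum]
  refine Finset.sum_congr rfl fun d hd => ?_
  have h := hP (MvPolynomial.mem_support_iff.mp hd)
  have h2 : ∑ i ∈ d.support, d i = D := by
    rw [← h]
    simp [Finsupp.weight_apply, Finsupp.sum]
  simp only [Pi.smul_apply, smul_eq_mul, mul_pow, Finset.prod_mul_distrib, Finset.prod_pow_eq_pow_sum,
    h2]
  ring

theorem ev_smul {ι κ : Type} (G : ι → MvPolynomial κ ℂ) (D : ℕ)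
    (hG : ∀ i, (G i).IsHomogeneous D) (l : ℂ) (z : κ → ℂ) : ev G (l • z) = l ^ D • ev G z := by
  funext i
  simp only [ev, Pi.smul_apply, smul_eq_mul]
  exact eval_smul_hom _ D (hG i) l z

theorem pf_D11 : T_D11 := by
  intro N D D' G H hD hD' hG hH
  refine ⟨⟨fun i => hom_bind H D D' (G i) (hG.hom i) hH.hom, fun z hz => ?_⟩, ?_, ?_, ?_⟩
  · rw [ev_cmp] at hz
    exact hH.nd z (hG.nd _ hz)
  · intro l z
    exact ev_smul G D hG.hom l z
  · intro l z
    ext i a
    simp only [jac, Matrix.smul_apply, smul_eq_mul]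
    exact eval_smul_hom _ (D - 1) ((hG.hom i).pderiv) l z
  · intro z
    funext i
    have h := (hG.hom i).sum_X_mul_pderiv
    have h2 := congrArg (MvPolynomial.eval z) h
    simp only [map_sum, map_mul, MvPolynomial.eval_X, nsmul_eq_mul, map_natCast] at h2
    simp only [Matrix.mulVec, dotProduct, jac, Pi.smul_apply, smul_eq_mul, ev]
    rw [← h2]
    exact Finset.sum_congr rfl fun a _ => mul_comm _ _

end Pool.Agent.H96.EQ
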