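import Pool.Agent.H92.EQ.TF2

/-!
Rows D8 and D13 of the board eqd (functoriality of the pull-back, linear maps).
-/

namespace Pool.Agent.H96.EQ

open scoped BigOperators ComplexConjugate ContDiff ComplexOrder
open Pool.Agent.H92.EQ

theorem eval_bind {κ τ : Type} (H : κ → MvPolynomial τ ℂ) (z : τ → ℂ) (P : MvPolynomial κ ℂ) :
    MvPolynomial.eval z (MvPolynomial.bind₁ H P) =
      MvPolynomial.eval (fun i => MvPolynomial.eval z (H i)) P := by
  induction P using MvPolynomial.induction_on with
  | C a => simp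
  | add p q hp hq => simp only [map_add, hp, hq]
  | mul_X p n hp => simp only [map_mul, hp, MvPolynomial.bind₁_X_right, MvPolynomial.eval_X]

theorem pderiv_bind {κ τ : Type} [Fintype κ] [DecidableEq κ] (H : κ → MvPolynomial τ ℂ) (a : τ)
    (P : MvPolynomial κ ℂ) :
    MvPolynomial.pderiv a (MvPolynomial.bind₁ H P) =
      ∑ i, MvPolynomial.bind₁ H (MvPolynomial.pderiv i P) * MvPolynomial.pderiv a (H i) := by
  classical
  induction P using MvPolynomial.induction_on with
  | C a => simp
  | add p q hp hq =>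
    simp only [map_add, hp, hq, add_mul, Finset.sum_add_distrib]
  | mul_X p n hp =>
    simp only [map_mul, MvPolynomial.bind₁_X_right, Derivation.leibniz, hp, smul_eq_mul, map_add,
      MvPolynomial.pderiv_X, add_mul, Finset.sum_add_distrib]
    congr 1
    · rw [Finset.sum_eq_single n]
      · simp
      · intro b _ hb
        rw [Pi.single_apply, if_neg (fun h => hb h.symm)]
        simp
      · intro h
        exact absurd (Finset.mem_univ n) h
    · rw [Finset.mul_sum]
      refine Finset.sum_congr rfl fun i _ => ?_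
      ring

/-- The composition rule for the pull-back when the values and the Jacobians compose. -/
theorem pull_comp {ι κ τ : Type} [Fintype ι] [DecidableEq ι] [Fintype κ] [DecidableEq κ]
    [Fintype τ] [DecidableEq τ] {p : ℕ} (K : ι → MvPolynomial τ ℂ) (G : ι → MvPolynomial κ ℂ)
    (H : κ → MvPolynomial τ ℂ) (S : Form ι p) (z : τ → ℂ)
    (h1 : ev K z = ev G (ev H z)) (h2 : jac K z = jac G (ev H z) * jac H z) :
    pull K S z = pull H (pull G S) z := by
  classical
  funext I J
  unfold pull
  rw [h1, h2]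
  have e1 : ∀ (I' : Fin p → ι), (∏ l, (jac G (ev H z) * jac H z) (I' l) (I l)) =
      ∑ A : Fin p → κ, (∏ l, jac G (ev H z) (I' l) (A l)) * ∏ l, jac H z (A l) (I l) := by
    intro I'
    simp only [Matrix.mul_apply]
    rw [Finset.prod_univ_sum, Fintype.piFinset_univ]
    refine Finset.sum_congr rfl fun A _ => ?_
    rw [Finset.prod_mul_distrib]
  have e2 : ∀ (J' : Fin p → ι), (∏ l, conj ((jac G (ev H z) * jac H z) (J' l) (J l))) =
      ∑ B : Fin p → κ, (∏ l, conj (jac G (ev H z) (J' l) (B l))) *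
        ∏ l, conj (jac H z (B l) (J l)) := by
    intro J'
    simp only [Matrix.mul_apply, map_sum, map_mul]
    rw [Finset.prod_univ_sum, Fintype.piFinset_univ]
    refine Finset.sum_congr rfl fun A _ => ?_
    rw [Finset.prod_mul_distrib]
  simp only [e1, e2, Finset.mul_sum, Finset.sum_mul]
  -- both sides are sums over I', J', A, B
  have lhs : ∀ I' J' : Fin p → ι, (∑ B : Fin p → κ, ∑ A : Fin p → κ,
      S (ev G (ev H z)) I' J' * ((∏ l, jac G (ev H z) (I' l) (A l)) * ∏ l, jac H z (A l) (I l)) *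
        ((∏ l, conj (jac G (ev H z) (J' l) (B l))) * ∏ l, conj (jac H z (B l) (J l)))) =
      ∑ A : Fin p → κ, ∑ B : Fin p → κ,
      S (ev G (ev H z)) I' J' * (∏ l, jac G (ev H z) (I' l) (A l)) *
        (∏ l, conj (jac G (ev H z) (J' l) (B l))) * (∏ l, jac H z (A l) (I l)) *
        ∏ l, conj (jac H z (B l) (J l)) := by
    intro I' J'
    rw [Finset.sum_comm]
    refine Finset.sum_congr rfl fun A _ => Finset.sum_congr rfl fun B _ => ?_
    ring
  simp only [lhs]
  calc _ = ∑ I' : Fin p → ι, ∑ A : Fin p → κ, ∑ J' : Fin p → ι, ∑ B : Fin p → κ,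
        S (ev G (ev H z)) I' J' * (∏ l, jac G (ev H z) (I' l) (A l)) *
        (∏ l, conj (jac G (ev H z) (J' l) (B l))) * (∏ l, jac H z (A l) (I l)) *
        ∏ l, conj (jac H z (B l) (J l)) := by
        refine Finset.sum_congr rfl fun I' _ => ?_
        rw [Finset.sum_comm]
    _ = ∑ A : Fin p → κ, ∑ I' : Fin p → ι, ∑ B : Fin p → κ, ∑ J' : Fin p → ι,
        S (ev G (ev H z)) I' J' * (∏ l, jac G (ev H z) (I' l) (A l)) *
        (∏ l, conj (jac G (ev H z) (J' l) (B l))) * (∏ l, jac H z (A l) (I l)) *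
        ∏ l, conj (jac H z (B l) (J l)) := by
        rw [Finset.sum_comm]
        refine Finset.sum_congr rfl fun A _ => Finset.sum_congr rfl fun I' _ => ?_
        rw [Finset.sum_comm]
    _ = _ := by
        refine Finset.sum_congr rfl fun A _ => ?_
        rw [Finset.sum_comm]

theorem ev_cmp {N : ℕ} (G H : Fin N → MvPolynomial (Fin N) ℂ) (z : Fin N → ℂ) :
    ev (cmp G H) z = ev G (ev H z) := by
  funext i
  exact eval_bind H z (G i)

theorem jac_cmp {N : ℕ} (G H : Fin N → MvPolynomial (Fin N) ℂ) (z : Fin N → ℂ) :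
    jac (cmp G H) z = jac G (ev H z) * jac H z := by
  ext i a
  rw [Matrix.mul_apply]
  change MvPolynomial.eval z (MvPolynomial.pderiv a (MvPolynomial.bind₁ H (G i))) = _
  rw [pderiv_bind, map_sum]
  refine Finset.sum_congr rfl fun b _ => ?_
  rw [map_mul, eval_bind]
  rfl

theorem pf_D8 : T_D8 := by
  intro N p G H S z
  exact ⟨ev_cmp G H z, jac_cmp G H z, pull_comp _ _ _ _ _ (ev_cmp G H z) (jac_cmp G H z)⟩

end Pool.Agent.H96.EQ
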